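import Mathlib
import Pool.Agent.H.MP_2e24ef_al.Main

set_option autoImplicit false

namespace Pool.Agent.Results.MP_2e24ef_al.Q1

open Pool.Agent.H.MP_2e24ef_al

theorem result (k : Type) [Field k] :
    ∃ (m : ℕ) (R : Set (FreeAlgebra k (Fin m))) (b : ℕ → ℕ) (n : ℕ),
      Quadratic k R ∧ LinRes k R b ∧ 1 ≤ n ∧ b n ≠ 0 ∧ (∀ i > n, b i = 0) ∧
        ((n : ℚ) - 1) / (2 * n) * (b 1 : ℚ) ^ 2 < b 2 :=
  ⟨4, RR k, bb, 6, quad, linres, by norm_num, by decide, fun i hi => by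
    obtain ⟨j, rfl⟩ : ∃ j, i = j + 7 := ⟨i - 7, by omega⟩
    rfl, by norm_num [bb]⟩

end Pool.Agent.Results.MP_2e24ef_al.Q1
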